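import Pool.Agent.Helper70.BU.Goals

/-!
# Project TW, part BU, packet INJ
-/

namespace Pool.Agent.Helper49.TW.INJ

open MvPolynomial
open Pool.Agent.Helper70.BU

section

variable {ι κ : Type} [Fintype ι] [DecidableEq ι] [Fintype κ] [DecidableEq κ]

lemma weight_at (b : ι → κ) (d : ι →₀ ℕ) (k : κ) :
    Finsupp.weight (wt b) d k = ∑ i with b i = k, d i := by
  rw [Finsupp.weight_eq_sum, Finset.sum_apply, Finset.sum_filter]
  refine Finset.sum_congr rfl (fun i _ => ?_)
  simp only [Pi.smul_apply, wt, smul_eq_mul, Pi.single_apply]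
  by_cases h : b i = k
  · rw [if_pos h.symm, if_pos h, mul_one]
  · rw [if_neg (fun h' => h h'.symm), if_neg h, mul_zero]

lemma eval_scale (b : ι → κ) (m : κ → ℕ) (u : MvPolynomial ι ℂ) (hu : u ∈ H b m) (l : κ → ℂ)
    (z : ι → ℂ) :
    eval (fun i => l (b i) * z i) u = (∏ k, l k ^ m k) * eval z u := by
  rw [eval_eq', eval_eq', Finset.mul_sum]
  refine Finset.sum_congr rfl (fun d hd => ?_)
  have hw : Finsupp.weight (wt b) d = m := hu (mem_support_iff.mp hd)
  have h1 : ∏ i, (l (b i) * z i) ^ d i = (∏ i, l (b i) ^ d i) * ∏ i, z i ^ d i := by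
    rw [← Finset.prod_mul_distrib]
    exact Finset.prod_congr rfl (fun i _ => mul_pow _ _ _)
  have h2 : ∏ i, l (b i) ^ d i = ∏ k, l k ^ m k := by
    rw [← Finset.prod_fiberwise Finset.univ b]
    refine Finset.prod_congr rfl (fun k _ => ?_)
    rw [← hw, weight_at, ← Finset.prod_pow_eq_pow_sum]
    exact Finset.prod_congr rfl (fun i hi => by rw [(Finset.mem_filter.mp hi).2])
  rw [h1, h2]
  ring

lemma fin_H (b : ι → κ) (m : κ → ℕ) : Module.Finite ℂ (H b m) := by
  have hsub : H b m ≤ homogeneousSubmodule ι ℂ (∑ k, m k) := by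
    intro u hu
    rw [mem_homogeneousSubmodule]
    intro d hd
    have hw : Finsupp.weight (wt b) d = m := hu hd
    rw [Finsupp.weight_eq_sum, ← hw]
    simp only [weight_at, Pi.one_apply, smul_eq_mul, mul_one]
    exact (Finset.sum_fiberwise Finset.univ b (fun i => d i)).symm
  have hfg : (homogeneousSubmodule ι ℂ (∑ k, m k)).FG := homogeneousSubmodule_fg ι ℂ _
  haveI : Module.Finite ℂ (homogeneousSubmodule ι ℂ (∑ k, m k)) := Module.Finite.iff_fg.mpr hfg
  exact Submodule.finiteDimensional_of_le hsub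

lemma vanish (b : ι → κ) (m : κ → ℕ) (hb : ∀ k, 1 ≤ bn b k) (u : MvPolynomial ι ℂ)
    (hu : u ∈ H b m) (h0 : ∀ z ∈ Sph b, eval z u = 0) : u = 0 := by
  have key : u * ∏ i, X i = 0 := by
    apply MvPolynomial.funext
    intro z
    rw [map_mul, map_prod, map_zero]
    simp only [eval_X]
    by_cases hz : ∃ i, z i = 0
    · obtain ⟨i, hi⟩ := hz
      rw [Finset.prod_eq_zero (Finset.mem_univ i) hi, mul_zero]
    · push Not at hz
      let S : κ → ℝ := fun k => ∑ i with b i = k, ‖z i‖ ^ 2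
      have hS : ∀ k, 0 < S k := by
        intro k
        apply Finset.sum_pos
        · intro i _
          have := norm_pos_iff.mpr (hz i)
          positivity
        · rw [← Finset.card_pos]
          exact hb k
      let y : ι → ℂ := fun i => z i / (Real.sqrt (S (b i)) : ℂ)
      have hy : y ∈ Sph b := by
        intro k
        have h1 : ∀ i ∈ Finset.univ.filter (fun i => b i = k), ‖y i‖ ^ 2 = ‖z i‖ ^ 2 / S k := by
          intro i hi
          have hik := (Finset.mem_filter.mp hi).2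
          simp only [y, hik]
          rw [norm_div, div_pow, Complex.norm_real, Real.norm_eq_abs, sq_abs,
            Real.sq_sqrt (hS k).le]
        rw [Finset.sum_congr rfl h1, ← Finset.sum_div]
        exact div_self (hS k).ne'
      have hz' : z = fun i => (Real.sqrt (S (b i)) : ℂ) * y i := by
        funext i
        have h1 : (Real.sqrt (S (b i)) : ℂ) ≠ 0 := by
          exact_mod_cast (Real.sqrt_pos.mpr (hS _)).ne'
        simp only [y]
        field_simp
      have h2 : eval z u = 0 := by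
        calc eval z u = eval (fun i => (Real.sqrt (S (b i)) : ℂ) * y i) u :=
              congrArg (fun w => eval w u) hz'
          _ = 0 := by
              rw [eval_scale b m u hu (fun k => (Real.sqrt (S k) : ℂ)) y, h0 y hy, mul_zero]
      rw [h2, zero_mul]
  rcases mul_eq_zero.mp key with h | h
  · exact h
  · exfalso
    exact (Finset.prod_ne_zero_iff.mpr (fun i _ => X_ne_zero i)) h

lemma compact_Sph (b : ι → κ) : IsCompact (Sph b) := by
  apply Metric.isCompact_of_isClosed_isBounded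
  · have h1 : Sph b = ⋂ k, {z : ι → ℂ | ∑ i with b i = k, ‖z i‖ ^ 2 = 1} := by
      ext z
      simp [Sph]
    rw [h1]
    exact isClosed_iInter (fun k => isClosed_eq (by fun_prop) continuous_const)
  · rw [isBounded_iff_forall_norm_le]
    refine ⟨1, fun z hz => ?_⟩
    rw [pi_norm_le_iff_of_nonneg zero_le_one]
    intro i
    have h1 := hz (b i)
    have h2 : ‖z i‖ ^ 2 ≤ ∑ j with b j = b i, ‖z j‖ ^ 2 :=
      Finset.single_le_sum (f := fun j => ‖z j‖ ^ 2) (fun j _ => by positivity) (by simp)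
    nlinarith [norm_nonneg (z i)]

end

theorem inj : INJ := by
  intro ι κ P Q _ _ _ _ _ _ b p q A c₀ hb hc₀ hA hlow
  classical
  set K : ℕ := ∑ a, ∑ k, (p a k).natAbs with hK
  have hpK : ∀ a k, (p a k).natAbs ≤ K := by
    intro a k
    calc (p a k).natAbs ≤ ∑ k, (p a k).natAbs :=
          Finset.single_le_sum (f := fun k => (p a k).natAbs) (fun _ _ => Nat.zero_le _)
            (Finset.mem_univ k)
      _ ≤ K := Finset.single_le_sum (f := fun a => ∑ k, (p a k).natAbs)
            (fun _ _ => Nat.zero_le _) (Finset.mem_univ a)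
  choose C n₁ hC0 hC using fun c a => (hA c a).2 K
  set C' : ℝ := ∑ c, ∑ a, C c a with hC'
  have hCC : ∀ c a, C c a ≤ C' := by
    intro c a
    calc C c a ≤ ∑ a, C c a :=
          Finset.single_le_sum (f := fun a => C c a) (fun a _ => hC0 c a) (Finset.mem_univ a)
      _ ≤ C' := Finset.single_le_sum (f := fun c => ∑ a, C c a)
            (fun c _ => Finset.sum_nonneg (fun a _ => hC0 c a)) (Finset.mem_univ c)
  set N₁ : ℕ := ∑ c, ∑ a, n₁ c a with hN₁
  have hnN : ∀ c a, n₁ c a ≤ N₁ := by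
    intro c a
    calc n₁ c a ≤ ∑ a, n₁ c a :=
          Finset.single_le_sum (f := fun a => n₁ c a) (fun _ _ => Nat.zero_le _)
            (Finset.mem_univ a)
      _ ≤ N₁ := Finset.single_le_sum (f := fun c => ∑ a, n₁ c a)
            (fun _ _ => Nat.zero_le _) (Finset.mem_univ c)
  obtain ⟨N₂, hN₂⟩ := exists_nat_gt
    ((Fintype.card Q : ℝ) * ((Fintype.card P : ℝ) * C') ^ 2 / c₀)
  refine ⟨max N₁ (max N₂ 1), fun n hn mP mQ hmP hmQ => ?_⟩
  have hn1 : N₁ ≤ n := le_trans (le_max_left _ _) hn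
  have hn2 : N₂ ≤ n := le_trans (le_trans (le_max_left _ _) (le_max_right _ _)) hn
  have hn3 : 1 ≤ n := le_trans (le_trans (le_max_right _ _) (le_max_right _ _)) hn
  have hnpos : (0 : ℝ) < n := by exact_mod_cast hn3
  have hsq : 0 < Real.sqrt n := Real.sqrt_pos.mpr hnpos
  have hnear : ∀ a, Near K n (mP a) := by
    intro a k
    have h1 := hmP a k
    have h2 := hpK a k
    constructor <;> omega
  have hsh : ∀ c a, Sh (mP a) (q c - p a) (mQ c) := by
    intro c a k
    have h1 := hmP a k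
    have h2 := hmQ c k
    simp only [Pi.sub_apply]
    omega
  have hT : ∀ c a, ∃ T : H b (mP a) →ₗ[ℂ] H b (mQ c), ∀ (u : H b (mP a)) (M : ℝ),
      (∀ z ∈ Sph b, ‖eval z (u : MvPolynomial ι ℂ)‖ ≤ M) →
      ∀ z ∈ Sph b, ‖eval z (T u : MvPolynomial ι ℂ) -
        A c a z * eval z (u : MvPolynomial ι ℂ)‖ ≤ C c a / Real.sqrt n * M :=
    fun c a => hC c a n (le_trans (hnN c a) hn1) (mP a) (mQ c) (hnear a) (hsh c a)
  choose T hT using hT
  let TT : (∀ a, H b (mP a)) →ₗ[ℂ] (∀ c, H b (mQ c)) :=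
    LinearMap.pi (fun c => ∑ a, (T c a).comp (LinearMap.proj a))
  have hinj : Function.Injective TT := by
    rw [← LinearMap.ker_eq_bot, LinearMap.ker_eq_bot']
    intro u hu
    by_contra hne
    obtain ⟨a₁, ha₁⟩ : ∃ a, u a ≠ 0 := by
      by_contra hcon
      push Not at hcon
      exact hne (funext hcon)
    have ha₁' : ∃ z ∈ Sph b, eval z (u a₁ : MvPolynomial ι ℂ) ≠ 0 := by
      by_contra hcon
      push Not at hcon
      exact ha₁ (Subtype.ext (vanish b (mP a₁) hb _ (u a₁).2 hcon))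
    obtain ⟨z₁, hz₁, hz₁'⟩ := ha₁'
    have hmax : ∀ a, ∃ z ∈ Sph b, ∀ w ∈ Sph b,
        ‖eval w (u a : MvPolynomial ι ℂ)‖ ≤ ‖eval z (u a : MvPolynomial ι ℂ)‖ := by
      intro a
      have hcont : ContinuousOn (fun w => ‖eval w (u a : MvPolynomial ι ℂ)‖) (Sph b) :=
        (continuous_norm.comp (MvPolynomial.continuous_eval _)).continuousOn
      obtain ⟨z, hz, hz'⟩ := (compact_Sph b).exists_isMaxOn ⟨z₁, hz₁⟩ hcont
      exact ⟨z, hz, fun w hw => hz' hw⟩
    choose zz hzz hzmax using hmax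
    obtain ⟨a₀, -, ha₀⟩ := Finset.exists_max_image Finset.univ
      (fun a => ‖eval (zz a) (u a : MvPolynomial ι ℂ)‖) ⟨a₁, Finset.mem_univ _⟩
    set z₀ := zz a₀ with hz₀
    set M : ℝ := ‖eval z₀ (u a₀ : MvPolynomial ι ℂ)‖ with hM
    have hbound : ∀ a, ∀ w ∈ Sph b, ‖eval w (u a : MvPolynomial ι ℂ)‖ ≤ M :=
      fun a w hw => le_trans (hzmax a w hw) (ha₀ a (Finset.mem_univ a))
    have hMpos : 0 < M := lt_of_lt_of_le (norm_pos_iff.mpr hz₁') (hbound a₁ z₁ hz₁)
    have hcest : ∀ c, ‖∑ a, A c a z₀ * eval z₀ (u a : MvPolynomial ι ℂ)‖ ≤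
        (Fintype.card P : ℝ) * (C' / Real.sqrt n * M) := by
      intro c
      have h1 : (∑ a, T c a (u a) : H b (mQ c)) = 0 := by
        have := congrFun hu c
        simpa [TT, LinearMap.pi_apply, LinearMap.sum_apply] using this
      have h2 : ∑ a, eval z₀ (T c a (u a) : MvPolynomial ι ℂ) = 0 := by
        have h3 := congrArg (fun v : H b (mQ c) => eval z₀ (v : MvPolynomial ι ℂ)) h1
        simpa using h3
      have h4 : ∑ a, A c a z₀ * eval z₀ (u a : MvPolynomial ι ℂ) =
          - ∑ a, (eval z₀ (T c a (u a) : MvPolynomial ι ℂ) -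
            A c a z₀ * eval z₀ (u a : MvPolynomial ι ℂ)) := by
        rw [Finset.sum_sub_distrib, h2]
        ring
      rw [h4, norm_neg]
      calc ‖∑ a, (eval z₀ (T c a (u a) : MvPolynomial ι ℂ) -
            A c a z₀ * eval z₀ (u a : MvPolynomial ι ℂ))‖
          ≤ ∑ a, ‖eval z₀ (T c a (u a) : MvPolynomial ι ℂ) -
            A c a z₀ * eval z₀ (u a : MvPolynomial ι ℂ)‖ := norm_sum_le _ _
        _ ≤ ∑ _a : P, C' / Real.sqrt n * M := by
            refine Finset.sum_le_sum (fun a _ => ?_)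
            refine le_trans (hT c a (u a) M (hbound a) z₀ (hzz a₀)) ?_
            gcongr
            exact hCC c a
        _ = (Fintype.card P : ℝ) * (C' / Real.sqrt n * M) := by
            rw [Finset.sum_const, Finset.card_univ, nsmul_eq_mul]
    have h5 : c₀ * M ^ 2 ≤
        (Fintype.card Q : ℝ) * ((Fintype.card P : ℝ) * (C' / Real.sqrt n * M)) ^ 2 := by
      calc c₀ * M ^ 2 ≤ c₀ * ∑ a, ‖eval z₀ (u a : MvPolynomial ι ℂ)‖ ^ 2 := by
            gcongr
            exact Finset.single_le_sum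
              (f := fun a => ‖eval z₀ (u a : MvPolynomial ι ℂ)‖ ^ 2)
              (fun a _ => by positivity) (Finset.mem_univ a₀)
        _ ≤ ∑ c, ‖∑ a, A c a z₀ * eval z₀ (u a : MvPolynomial ι ℂ)‖ ^ 2 :=
            hlow z₀ (hzz a₀) _
        _ ≤ ∑ _c : Q, ((Fintype.card P : ℝ) * (C' / Real.sqrt n * M)) ^ 2 := by
            refine Finset.sum_le_sum (fun c _ => ?_)
            exact pow_le_pow_left₀ (norm_nonneg _) (hcest c) 2
        _ = _ := by
            rw [Finset.sum_const, Finset.card_univ, nsmul_eq_mul]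
    have h6 : ((Fintype.card P : ℝ) * (C' / Real.sqrt n * M)) ^ 2 =
        ((Fintype.card P : ℝ) * C') ^ 2 / n * M ^ 2 := by
      have h7 : Real.sqrt n ^ 2 = n := Real.sq_sqrt hnpos.le
      rw [mul_pow, mul_pow, div_pow, h7, mul_pow]
      ring
    rw [h6] at h5
    have h8 : c₀ ≤ (Fintype.card Q : ℝ) * (((Fintype.card P : ℝ) * C') ^ 2 / n) := by
      have hM2 : 0 < M ^ 2 := by positivity
      refine le_of_mul_le_mul_right ?_ hM2
      calc c₀ * M ^ 2 ≤ _ := h5
        _ = _ := by ring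
    have h9 : (Fintype.card Q : ℝ) * ((Fintype.card P : ℝ) * C') ^ 2 / c₀ < n :=
      lt_of_lt_of_le hN₂ (by exact_mod_cast hn2)
    rw [div_lt_iff₀ hc₀] at h9
    have h10 : c₀ * n ≤ (Fintype.card Q : ℝ) * ((Fintype.card P : ℝ) * C') ^ 2 := by
      calc c₀ * n ≤ (Fintype.card Q : ℝ) * (((Fintype.card P : ℝ) * C') ^ 2 / n) * n := by
            gcongr
        _ = _ := by field_simp
    nlinarith
  haveI : ∀ c, Module.Finite ℂ (H b (mQ c)) := fun c => fin_H b (mQ c)
  haveI : ∀ a, Module.Finite ℂ (H b (mP a)) := fun a => fin_H b (mP a)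
  have hfin := LinearMap.finrank_le_finrank_of_injective hinj
  rwa [Module.finrank_pi_fintype, Module.finrank_pi_fintype] at hfin

end Pool.Agent.Helper49.TW.INJ
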